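import Pool.Agent.Lib.MP_b6d339_lc.Pos.XGlue
import Pool.Agent.Lib.MP_b6d339_lc.Cw.F0
import Pool.Agent.Lib.MP_b6d339_lc.Cw.F1
import Pool.Agent.Lib.MP_b6d339_lc.Cw.F2
import Pool.Agent.Lib.MP_b6d339_lc.Cw.F3
import Pool.Agent.Lib.MP_b6d339_lc.Cw.F4
import Pool.Agent.Lib.MP_b6d339_lc.Cw.F5
import Pool.Agent.Lib.MP_b6d339_lc.Cw.F6
import Pool.Agent.Lib.MP_b6d339_lc.Cw.F7
import Pool.Agent.Lib.MP_b6d339_lc.Cw.F8
import Pool.Agent.Lib.MP_b6d339_lc.Cw.F9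
import Pool.Agent.Lib.MP_b6d339_lc.Cw3.F15

/-!
# Erdős 592, three levels: the template theorem
-/

namespace MPb6P

theorem TT3_main : TT 3 :=
  TT3_of_two (M := 848) (by decide) (POK.mono (by decide) pokNF3F) MPb6R.pokNF3I3F

end MPb6P
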